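import Pool.Agent.V1146.GF.Lab

/-!
Boundary continuity of the Green functions of label invariant operators on trees of finite
cone type, up to and including every real energy.
-/

open Filter Topology

namespace Pool.Agent.Results.MP_ae9099_mp.BoundaryContinuity

/-- The labelled rooted tree `T(M, j)`: a rooted tree on the vertex set `V`, given by its root and
its parent map (the root is its own parent, and every vertex reaches the root by iterating the
parent map), with a labelling such that the root has label `j` and every vertex with label `k`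
has exactly `M k l` children with label `l`. -/
structure ConeTree (V A : Type) (M : A → A → ℕ) (j : A) where
  root : V
  parent : V → V
  label : V → A
  parent_root : parent root = root
  reach : ∀ x, ∃ n : ℕ, parent^[n] x = root
  label_root : label root = j
  card_children : ∀ (x : V) (l : A),
    {y | y ≠ root ∧ parent y = x ∧ label y = l}.encard = ((M (label x) l : ℕ) : ℕ∞)

namespace ConeTree

variable {V A : Type} {M : A → A → ℕ} {j : A} (T : ConeTree V A M j)

/-- `y` is a child of `x`. -/
def Child (x y : V) : Prop := y ≠ T.root ∧ T.parent y = x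

/-- `x` and `y` are adjacent. -/
def Adj (x y : V) : Prop := T.Child x y ∨ T.Child y x

/-- The set `V_x` consisting of `x` and all its descendants. -/
def cone (x : V) : Set V := {y | ∃ n : ℕ, T.parent^[n] y = x}

end ConeTree

/-- The coefficients `t`, `w` and the weight `ν` of a label invariant operator. -/
structure LabelInvariant {V A : Type} {M : A → A → ℕ} {j : A} (T : ConeTree V A M j)
    (ν : V → ℝ) (t : V → V → ℂ) (w : V → ℝ) : Prop where
  ν_pos : ∀ x, 0 < ν x
  ν_label : ∀ x y, T.label x = T.label y → ν x = ν y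
  t_ne_zero : ∀ x y, t x y ≠ 0 ↔ T.Adj x y
  t_symm : ∀ x y, t x y * (ν x : ℂ) = (starRingEnd ℂ) (t y x) * (ν y : ℂ)
  t_label : ∃ m : A → A → ℝ, ∀ x y, T.Child x y →
    ‖t x y‖ ^ 2 * (M (T.label x) (T.label y) : ℝ) = m (T.label x) (T.label y)
  w_label : ∃ m : A → ℝ, ∀ x, w x = m (T.label x)

open Classical in
/-- The function `δ_x`. -/
noncomputable def delta {V : Type} (x : V) : V → ℂ := fun v => if v = x then 1 else 0

/-- The inner product of `ℓ²(V, ν)`. -/
noncomputable def innerν {V : Type} (ν : V → ℝ) (φ ψ : V → ℂ) : ℂ :=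
  ∑' v, (starRingEnd ℂ) (φ v) * ψ v * (ν v : ℂ)

/-- `u = (T_S - z)⁻¹ δ_x`, where `ℓ²(S, ν)` is regarded as the space of the functions of
`ℓ²(V, ν)` vanishing off `S`: `u` vanishes off `S`, is in `ℓ²(V, ν)`, and
`∑_y t(v,y) u(y) + w(v) u(v) - z u(v) = δ_x(v)` for all `v` in `S`. -/
def IsResolventVector {V : Type} (ν : V → ℝ) (t : V → V → ℂ) (w : V → ℝ) (S : Set V) (x : V)
    (z : ℂ) (u : V → ℂ) : Prop :=
  (∀ v, v ∉ S → u v = 0) ∧ (Summable fun v => ν v * ‖u v‖ ^ 2) ∧
    ∀ v ∈ S, (∑' y, t v y * u y) + (w v : ℂ) * u v - z * u v = delta x v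

open Classical in
/-- The Green function `⟨δ_x, (T_S - z)⁻¹ δ_x⟩`. -/
noncomputable def green {V : Type} (ν : V → ℝ) (t : V → V → ℂ) (w : V → ℝ) (S : Set V) (x : V)
    (z : ℂ) : ℂ :=
  if h : ∃ u, IsResolventVector ν t w S x z u then innerν ν (delta x) h.choose else 0

/-- `F` has boundary values at all real points (as unrestricted limits from the open upper
half-plane, in particular along vertical lines), and they form a continuous function on `ℝ`. -/
def ContinuousBoundaryValues (F : ℂ → ℂ) : Prop :=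
  ∃ f : ℝ → ℂ, Continuous f ∧ ∀ E : ℝ,
    Tendsto (fun η : ℝ => F ((E : ℂ) + (η : ℂ) * Complex.I)) (𝓝[>] 0) (𝓝 (f E)) ∧
    Tendsto F (𝓝[{z : ℂ | 0 < z.im}] (E : ℂ)) (𝓝 (f E))

open Pool.Agent.V1146.GF

section Proof

variable {V A : Type} {M : A → A → ℕ} {j : A} (T : ConeTree V A M j)

theorem finite_children [Finite A] (x : V) : {y | y ≠ T.root ∧ T.parent y = x}.Finite := by
  have h : {y | y ≠ T.root ∧ T.parent y = x} =
      ⋃ l : A, {y | y ≠ T.root ∧ T.parent y = x ∧ T.label y = l} := by
    ext y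
    simp
  rw [h]
  apply Set.finite_iUnion
  intro l
  rw [← Set.encard_lt_top_iff, T.card_children]
  exact ENat.natCast_lt_top _

variable {T} {ν : V → ℝ} {t : V → V → ℂ} {w : V → ℝ}

/-- normalized matrix entry between a vertex and its parent -/
noncomputable def bb (T : ConeTree V A M j) (ν : V → ℝ) (t : V → V → ℂ) (y : V) : ℂ :=
  ((Real.sqrt (ν y) / Real.sqrt (ν (T.parent y)) : ℝ) : ℂ) * t y (T.parent y)

theorem conj_bb (hT : LabelInvariant T ν t w) (y : V) :
    (starRingEnd ℂ) (bb T ν t y) =
      ((Real.sqrt (ν (T.parent y)) / Real.sqrt (ν y) : ℝ) : ℂ) * t (T.parent y) y := by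
  have h1 := hT.t_symm (T.parent y) y
  have hy := hT.ν_pos y
  have hp := hT.ν_pos (T.parent y)
  have e1 : (ν y : ℂ) = (Real.sqrt (ν y) : ℂ) * (Real.sqrt (ν y) : ℂ) := by
    rw [← Complex.ofReal_mul, Real.mul_self_sqrt hy.le]
  have e2 : (ν (T.parent y) : ℂ) = (Real.sqrt (ν (T.parent y)) : ℂ) *
      (Real.sqrt (ν (T.parent y)) : ℂ) := by
    rw [← Complex.ofReal_mul, Real.mul_self_sqrt hp.le]
  rw [e1, e2] at h1
  have n1 : (Real.sqrt (ν y) : ℂ) ≠ 0 := by
    rw [Complex.ofReal_ne_zero]
    exact (Real.sqrt_pos.mpr hy).ne'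
  have n2 : (Real.sqrt (ν (T.parent y)) : ℂ) ≠ 0 := by
    rw [Complex.ofReal_ne_zero]
    exact (Real.sqrt_pos.mpr hp).ne'
  unfold bb
  rw [map_mul, Complex.conj_ofReal]
  push_cast
  field_simp
  linear_combination -h1

theorem normsq_bb (hT : LabelInvariant T ν t w) (y : V) :
    ‖bb T ν t y‖ ^ 2 = ‖t (T.parent y) y‖ ^ 2 * (ν (T.parent y) / ν y) := by
  have hy := hT.ν_pos y
  have hp := hT.ν_pos (T.parent y)
  rw [← Complex.norm_conj, conj_bb hT, norm_mul, Complex.norm_real, Real.norm_eq_abs, mul_pow,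
    sq_abs, div_pow, Real.sq_sqrt hy.le, Real.sq_sqrt hp.le]
  ring

theorem bb_ne_zero (hT : LabelInvariant T ν t w) {y : V} (hy0 : y ≠ T.root) : bb T ν t y ≠ 0 := by
  have hy := Real.sqrt_pos.mpr (hT.ν_pos y)
  have hp := Real.sqrt_pos.mpr (hT.ν_pos (T.parent y))
  unfold bb
  apply mul_ne_zero
  · rw [Complex.ofReal_ne_zero]
    positivity
  · rw [hT.t_ne_zero]
    exact Or.inr ⟨hy0, rfl⟩

theorem exists_k (hT : LabelInvariant T ν t w) : ∃ k : A → A → ℝ, ∀ y, y ≠ T.root →
    ‖bb T ν t y‖ ^ 2 = k (T.label (T.parent y)) (T.label y) := by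
  classical
  obtain ⟨m, hm⟩ := hT.t_label
  have hM : ∀ y, y ≠ T.root → (M (T.label (T.parent y)) (T.label y) : ℝ) ≠ 0 := by
    intro y hy h0
    have h1 := T.card_children (T.parent y) (T.label y)
    have h2 : M (T.label (T.parent y)) (T.label y) = 0 := by exact_mod_cast h0
    rw [h2, Nat.cast_zero, Set.encard_eq_zero] at h1
    have : y ∈ ({y' | y' ≠ T.root ∧ T.parent y' = T.parent y ∧ T.label y' = T.label y} : Set V) :=
      ⟨hy, rfl, rfl⟩
    rw [h1] at this
    exact this
  have hval : ∀ y y', y ≠ T.root → y' ≠ T.root → T.label (T.parent y) = T.label (T.parent y') →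
      T.label y = T.label y' → ‖bb T ν t y‖ ^ 2 = ‖bb T ν t y'‖ ^ 2 := by
    intro y y' hy hy' h1 h2
    rw [normsq_bb hT, normsq_bb hT, hT.ν_label _ _ h1, hT.ν_label _ _ h2]
    congr 1
    have e1 := hm (T.parent y) y ⟨hy, rfl⟩
    have e2 := hm (T.parent y') y' ⟨hy', rfl⟩
    rw [← h1, ← h2, ← e1] at e2
    exact (mul_right_cancel₀ (hM y hy) e2).symm
  refine ⟨fun l l' => if h : ∃ y, y ≠ T.root ∧ T.label (T.parent y) = l ∧ T.label y = l' then
    ‖bb T ν t h.choose‖ ^ 2 else 0, ?_⟩
  intro y hy
  have h : ∃ y', y' ≠ T.root ∧ T.label (T.parent y') = T.label (T.parent y) ∧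
    T.label y' = T.label y := ⟨y, hy, rfl, rfl⟩
  beta_reduce
  rw [dif_pos h]
  exact hval _ _ hy h.choose_spec.1 h.choose_spec.2.1.symm h.choose_spec.2.2.symm

theorem main [Finite A] (hM1 : ∀ l, 1 ≤ M l l) (hT : LabelInvariant T ν t w) :
    ∃ D : TD V, D.o = T.root ∧ D.p = T.parent ∧ D.b = bb T ν t ∧ D.w = w ∧
      ∀ (x : V) (E : ℝ), (∃ L, Tendsto (D.γ x) (𝓝[V1146.GF.upper] (E : ℂ)) (𝓝 L)) ∧
        (∃ L, Tendsto (D.G x) (𝓝[V1146.GF.upper] (E : ℂ)) (𝓝 L)) := by
  classical
  have : Fintype A := Fintype.ofFinite A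
  obtain ⟨k, hk⟩ := exists_k hT
  obtain ⟨m, hm⟩ := hT.w_label
  have hch : ∀ x y, y ∈ (finite_children T x).toFinset ↔ y ≠ T.root ∧ T.parent y = x := by
    intro x y
    rw [Set.Finite.mem_toFinset]
    rfl
  have hcard : ∀ x l, ((finite_children T x).toFinset.filter (fun y => T.label y = l)).card =
      M (T.label x) l := by
    intro x l
    have h1 := T.card_children x l
    have h2 : {y | y ≠ T.root ∧ T.parent y = x ∧ T.label y = l} =
        (((finite_children T x).toFinset.filter (fun y => T.label y = l) : Finset V) : Set V) := by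
      ext y
      simp [and_assoc]
    rw [h2, Set.encard_coe_eq_coe_finsetCard] at h1
    exact_mod_cast h1
  have hsumb : ∀ x, ∑ y ∈ (finite_children T x).toFinset, ‖bb T ν t y‖ ^ 2 ≤
      ∑ l, (M (T.label x) l : ℝ) * |k (T.label x) l| := by
    intro x
    rw [← Finset.sum_fiberwise _ T.label]
    apply Finset.sum_le_sum
    intro l _
    rw [← hcard x l]
    have : ∀ y ∈ (finite_children T x).toFinset.filter (fun y => T.label y = l),
        ‖bb T ν t y‖ ^ 2 ≤ |k (T.label x) l| := by
      intro y hy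
      rw [Finset.mem_filter] at hy
      obtain ⟨hy1, hy2⟩ := (hch x y).mp hy.1
      have h1 := hk y hy1
      rw [hy2, hy.2] at h1
      rw [h1]
      exact le_abs_self _
    refine (Finset.sum_le_sum this).trans ?_
    rw [Finset.sum_const, nsmul_eq_mul]
  let D : TD V :=
    { o := T.root
      p := T.parent
      po := T.parent_root
      reach := T.reach
      ch := fun x => (finite_children T x).toFinset
      mem_ch := hch
      b := bb T ν t
      w := w
      K := ∑ l', ∑ l, (M l' l : ℝ) * |k l' l| + ∑ l, (m l) ^ 2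
      hK0 := by positivity
      hb := by
        intro x
        refine (hsumb x).trans ?_
        have h1 := Finset.single_le_sum (f := fun l' => ∑ l, (M l' l : ℝ) * |k l' l|)
          (fun l' _ => by positivity) (Finset.mem_univ (T.label x))
        have h2 : 0 ≤ ∑ l, (m l) ^ 2 := by positivity
        linarith
      hw := by
        intro x
        have h1 := Finset.single_le_sum (f := fun l => (m l) ^ 2)
          (fun l _ => by positivity) (Finset.mem_univ (T.label x))
        have h2 : 0 ≤ ∑ l', ∑ l, (M l' l : ℝ) * |k l' l| := by positivity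
        rw [hm x]
        linarith }
  refine ⟨D, rfl, rfl, rfl, rfl, ?_⟩
  -- the labels which occur
  let ι := {l : A // ∃ x, T.label x = l}
  let a : V → ι := fun x => ⟨T.label x, x, rfl⟩
  have ha : Function.Surjective a := by
    rintro ⟨l, x, hx⟩
    exact ⟨x, Subtype.ext hx⟩
  have hcard' : ∀ x (l : ι), ((D.ch x).filter (fun y => a y = l)).card = M (a x).1 l.1 := by
    intro x l
    rw [← hcard x l.1]
    congr 1
    ext y
    rw [Finset.mem_filter, Finset.mem_filter]
    exact and_congr Iff.rfl Subtype.ext_iff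
  intro x E
  exact ⟨D.γ_boundary a (fun l l' => M l.1 l'.1) hcard' (fun l l' => k l.1 l'.1)
      (fun y hy => hk y hy) (fun l => m l.1) (fun y => hm y) ha (fun l => hM1 l.1)
      (fun y hy => bb_ne_zero hT hy) x E,
    D.G_boundary a (fun l l' => M l.1 l'.1) hcard' (fun l l' => k l.1 l'.1)
      (fun y hy => hk y hy) (fun l => m l.1) (fun y => hm y) ha (fun l => hM1 l.1)
      (fun y hy => bb_ne_zero hT hy) x E⟩

theorem tsum_nbr (hT : LabelInvariant T ν t w) (D : TD V) (ho : D.o = T.root)
    (hp : D.p = T.parent) (v : V) (u : V → ℂ) : ∑' y, t v y * u y =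
      (by classical exact if v = T.root then (0:ℂ) else t v (T.parent v) * u (T.parent v)) +
        ∑ c ∈ D.ch v, t v c * u c := by
  classical
  have hch : ∀ c, c ∈ D.ch v ↔ c ≠ T.root ∧ T.parent c = v := by
    intro c
    rw [D.mem_ch, ho, hp]
  by_cases hv : v = T.root
  · rw [if_pos hv, zero_add]
    apply tsum_eq_sum
    intro y hy
    have : t v y = 0 := by
      by_contra h
      rcases (hT.t_ne_zero v y).mp h with h | h
      · exact hy ((hch y).mpr h)
      · exact h.1 hv
    rw [this, zero_mul]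
  · rw [if_neg hv]
    have hpn : T.parent v ∉ D.ch v := by
      intro h
      have h1 := (hch _).mp h
      have h2 := D.p_notMem_desc (x := v) (by rw [ho]; exact hv)
      apply h2
      rw [hp]
      exact ⟨1, by rw [hp]; exact h1.2⟩
    rw [← Finset.sum_insert (f := fun c => t v c * u c) hpn]
    apply tsum_eq_sum
    intro y hy
    rw [Finset.mem_insert, not_or] at hy
    have : t v y = 0 := by
      by_contra h
      rcases (hT.t_ne_zero v y).mp h with h | h
      · exact hy.2 ((hch y).mpr h)
      · exact hy.1 h.2.symm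
    rw [this, zero_mul]

theorem bridge (hT : LabelInvariant T ν t w) (D : TD V) (ho : D.o = T.root)
    (hp : D.p = T.parent) (hb : D.b = bb T ν t) (hw : D.w = w) (S : Set V) (u : V → ℂ)
    (hu : ∀ v, v ∉ S → u v = 0) (f : HH V) (hf : ∀ v, f v = (Real.sqrt (ν v) : ℂ) * u v) (v : V)
    (hv : v ∈ S) : D.A S f v = (Real.sqrt (ν v) : ℂ) * ((∑' y, t v y * u y) + (w v : ℂ) * u v) := by
  classical
  have hs : ∀ v, (Real.sqrt (ν v) : ℂ) ≠ 0 := by
    intro v
    rw [Complex.ofReal_ne_zero]
    exact (Real.sqrt_pos.mpr (hT.ν_pos v)).ne'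
  have hd : D.dS S v = (w v : ℂ) := by
    unfold TD.dS
    rw [if_pos hv, hw]
  have h1 : D.cS S v * f (D.p v) = (Real.sqrt (ν v) : ℂ) *
      (if v = T.root then (0:ℂ) else t v (T.parent v) * u (T.parent v)) := by
    unfold TD.cS
    by_cases hvr : v = T.root
    · rw [if_pos hvr, if_neg, zero_mul, mul_zero]
      rintro ⟨h, -⟩
      rw [ho] at h
      exact h hvr
    · rw [if_neg hvr]
      by_cases hpv : T.parent v ∈ S
      · rw [if_pos ⟨by rw [ho]; exact hvr, hv, by rw [hp]; exact hpv⟩, hf, hb, hp]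
        unfold bb
        have := hs (T.parent v)
        push_cast
        field_simp
      · rw [if_neg, hu _ hpv]
        · simp
        · rintro ⟨-, -, h⟩
          rw [hp] at h
          exact hpv h
  have h2 : ∀ c ∈ D.ch v, (starRingEnd ℂ) (D.cS S c) * f c =
      (Real.sqrt (ν v) : ℂ) * (t v c * u c) := by
    intro c hc
    obtain ⟨hc1, hc2⟩ := (D.mem_ch v c).mp hc
    rw [hf]
    by_cases hcS : c ∈ S
    · have : D.cS S c = bb T ν t c := by
        unfold TD.cS
        rw [if_pos ⟨hc1, hcS, by rw [hc2]; exact hv⟩, hb]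
      rw [hp] at hc2
      rw [this, conj_bb hT, hc2]
      have := hs c
      push_cast
      field_simp
    · rw [hu c hcS]
      simp
  rw [TD.A_apply, h1, Finset.sum_congr rfl h2, hd, hf, tsum_nbr hT D ho hp v u, ← Finset.mul_sum]
  ring

theorem isRes_iff (hT : LabelInvariant T ν t w) (D : TD V) (ho : D.o = T.root)
    (hp : D.p = T.parent) (hb : D.b = bb T ν t) (hw : D.w = w) (S : Set V) (x : V) (hx : x ∈ S)
    {z : ℂ} (hz : z ∈ V1146.GF.upper) (u : V → ℂ) : IsResolventVector ν t w S x z u ↔
      ∀ v, (Real.sqrt (ν v) : ℂ) * u v = (Real.sqrt (ν x) : ℂ) * D.g S x z v := by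
  classical
  have hs : ∀ v, (Real.sqrt (ν v) : ℂ) ≠ 0 := by
    intro v
    rw [Complex.ofReal_ne_zero]
    exact (Real.sqrt_pos.mpr (hT.ν_pos v)).ne'
  have hsq : ∀ v, ‖(Real.sqrt (ν v) : ℂ) * u v‖ ^ 2 = ν v * ‖u v‖ ^ 2 := by
    intro v
    rw [norm_mul, Complex.norm_real, Real.norm_eq_abs, mul_pow, sq_abs,
      Real.sq_sqrt (hT.ν_pos v).le]
  constructor
  · rintro ⟨hu0, hus, hue⟩
    let f : HH V := ⟨fun v => (Real.sqrt (ν v) : ℂ) * u v, memlp_of_summable (by
      simpa only [hsq] using hus)⟩
    have hf : ∀ v, f v = (Real.sqrt (ν v) : ℂ) * u v := fun v => rfl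
    have key : f = (Real.sqrt (ν x) : ℂ) • D.g S x z := by
      apply D.g_unique S x hz
      ext v
      have hL : (D.A S f - z • f) v = D.A S f v - z * f v := rfl
      have hR : ((Real.sqrt (ν x) : ℂ) • (lp.single 2 x (1:ℂ) : HH V)) v =
        (Real.sqrt (ν x) : ℂ) * (lp.single 2 x (1:ℂ) : HH V) v := rfl
      rw [hL, hR]
      by_cases hv : v ∈ S
      · rw [bridge hT D ho hp hb hw S u hu0 f hf v hv, hf]
        have h1 := hue v hv
        by_cases hvx : v = x
        · subst hvx
          rw [lp.single_apply_self]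
          unfold delta at h1
          rw [if_pos rfl] at h1
          linear_combination (Real.sqrt (ν v) : ℂ) * h1
        · rw [lp.single_apply_ne _ _ _ hvx]
          unfold delta at h1
          rw [if_neg hvx] at h1
          linear_combination (Real.sqrt (ν v) : ℂ) * h1
      · have hvx : v ≠ x := by
          rintro rfl
          exact hv hx
        rw [lp.single_apply_ne _ _ _ hvx, TD.A_apply]
        have h1 : D.cS S v = 0 := by
          unfold TD.cS
          rw [if_neg]
          rintro ⟨-, h, -⟩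
          exact hv h
        have h2 : ∀ c ∈ D.ch v, (starRingEnd ℂ) (D.cS S c) * f c = 0 := by
          intro c hc
          obtain ⟨hc1, hc2⟩ := (D.mem_ch v c).mp hc
          have : D.cS S c = 0 := by
            unfold TD.cS
            rw [if_neg]
            rintro ⟨-, -, h⟩
            rw [hc2] at h
            exact hv h
          rw [this]
          simp
        rw [Finset.sum_eq_zero h2, h1, hf v, hu0 v hv]
        simp
    intro v
    have := congrArg (fun f : HH V => f v) key
    exact this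
  · intro h
    let f : HH V := (Real.sqrt (ν x) : ℂ) • D.g S x z
    have hf : ∀ v, f v = (Real.sqrt (ν v) : ℂ) * u v := fun v => (h v).symm
    have hu0 : ∀ v, v ∉ S → u v = 0 := by
      intro v hv
      have h1 := h v
      rw [D.g_zero S hx hv hz, mul_zero] at h1
      exact (mul_eq_zero.mp h1).resolve_left (hs v)
    refine ⟨hu0, ?_, ?_⟩
    · have := (hasSum_sq f).summable
      simp only [hf, hsq] at this
      exact this
    · intro v hv
      have h1 := bridge hT D ho hp hb hw S u hu0 f hf v hv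
      have h2 := D.g_spec_apply S x v hz
      have h3 : D.A S f v = (Real.sqrt (ν x) : ℂ) * D.A S (D.g S x z) v := by
        have : D.A S f = (Real.sqrt (ν x) : ℂ) • D.A S (D.g S x z) := map_smul _ _ _
        rw [this]
        rfl
      have h4 := h v
      have h5 := hs v
      apply mul_left_cancel₀ h5
      unfold delta
      by_cases hvx : v = x
      · subst hvx
        rw [if_pos rfl]
        simp only [if_true] at h2
        linear_combination h3 - h1 + (Real.sqrt (ν v) : ℂ) * h2 - z * h4
      · rw [if_neg hvx]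
        rw [if_neg hvx] at h2
        linear_combination h3 - h1 + (Real.sqrt (ν x) : ℂ) * h2 - z * h4

theorem isRes_unique (hT : LabelInvariant T ν t w) (D : TD V) (ho : D.o = T.root)
    (hp : D.p = T.parent) (hb : D.b = bb T ν t) (hw : D.w = w) (S : Set V) (x : V) (hx : x ∈ S)
    {z : ℂ} (hz : z ∈ V1146.GF.upper) : ∃! u, IsResolventVector ν t w S x z u := by
  have hs : ∀ v, (Real.sqrt (ν v) : ℂ) ≠ 0 := by
    intro v
    rw [Complex.ofReal_ne_zero]
    exact (Real.sqrt_pos.mpr (hT.ν_pos v)).ne'
  refine ⟨fun v => (Real.sqrt (ν x) : ℂ) * D.g S x z v / (Real.sqrt (ν v) : ℂ), ?_, ?_⟩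
  · simp only
    rw [isRes_iff hT D ho hp hb hw S x hx hz]
    intro v
    have := hs v
    field_simp
  · intro u hu
    rw [isRes_iff hT D ho hp hb hw S x hx hz] at hu
    funext v
    have := hs v
    rw [← hu v]
    field_simp

theorem green_eq (hT : LabelInvariant T ν t w) (D : TD V) (ho : D.o = T.root)
    (hp : D.p = T.parent) (hb : D.b = bb T ν t) (hw : D.w = w) (S : Set V) (x : V) (hx : x ∈ S)
    {z : ℂ} (hz : z ∈ V1146.GF.upper) : green ν t w S x z = (ν x : ℂ) * D.g S x z x := by
  classical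
  have hs : ∀ v, (Real.sqrt (ν v) : ℂ) ≠ 0 := by
    intro v
    rw [Complex.ofReal_ne_zero]
    exact (Real.sqrt_pos.mpr (hT.ν_pos v)).ne'
  have hex : ∃ u, IsResolventVector ν t w S x z u :=
    (isRes_unique hT D ho hp hb hw S x hx hz).exists
  unfold green
  rw [dif_pos hex]
  have h1 := (isRes_iff hT D ho hp hb hw S x hx hz _).mp hex.choose_spec x
  have h2 := mul_left_cancel₀ (hs x) h1
  unfold innerν
  rw [tsum_eq_single x]
  · rw [h2]
    unfold delta
    simp [mul_comm]
  · intro v hv
    unfold delta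
    simp [hv]

theorem cbv_of_limits (F : ℂ → ℂ) (h : ∀ E : ℝ, ∃ L, Tendsto F (𝓝[V1146.GF.upper] (E : ℂ)) (𝓝 L)) :
    ContinuousBoundaryValues F := by
  refine ⟨fun E => extendFrom V1146.GF.upper F (E : ℂ), ?_, ?_⟩
  · have h1 : ContinuousOn (extendFrom V1146.GF.upper F) (Set.range (fun E : ℝ => (E : ℂ))) := by
      apply continuousOn_extendFrom
      · rintro _ ⟨E, rfl⟩
        exact closure_upper_real E
      · rintro _ ⟨E, rfl⟩
        exact h E
    exact h1.comp_continuous Complex.continuous_ofReal (fun E => ⟨E, rfl⟩)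
  · intro E
    obtain ⟨L, hL⟩ := h E
    have h1 : extendFrom V1146.GF.upper F (E : ℂ) = L := extendFrom_eq (closure_upper_real E) hL
    simp only [h1]
    refine ⟨?_, hL⟩
    have h2 : Tendsto (fun η : ℝ => (E : ℂ) + (η : ℂ) * Complex.I) (𝓝[>] 0) (𝓝[V1146.GF.upper] (E : ℂ)) := by
      rw [tendsto_nhdsWithin_iff]
      constructor
      · have : Continuous (fun η : ℝ => (E : ℂ) + (η : ℂ) * Complex.I) := by fun_prop
        have h3 := this.tendsto 0
        simp only [Complex.ofReal_zero, zero_mul, add_zero] at h3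
        exact h3.mono_left nhdsWithin_le_nhds
      · filter_upwards [self_mem_nhdsWithin] with η hη
        have : (0:ℝ) < η := hη
        simpa [V1146.GF.upper] using this
    exact hL.comp h2

end Proof

/-- Let `M` be a nonnegative integer matrix over a finite label set with all diagonal entries at
least `1`. For every label invariant operator on the tree `T(M, j)` and every vertex `x`, the
resolvent vectors defining `Γ_x(z)` and `G_x(z)` exist and are unique for `Im z > 0`, and both
Green functions have boundary values at every real energy, which depend continuously on the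
energy. -/
theorem result {V A : Type} [Finite A] (M : A → A → ℕ) (j : A) (hM1 : ∀ l, 1 ≤ M l l)
    (T : ConeTree V A M j) (ν : V → ℝ) (t : V → V → ℂ) (w : V → ℝ)
    (hT : LabelInvariant T ν t w) (x : V) :
    ((∀ z : ℂ, 0 < z.im → ∃! u, IsResolventVector ν t w (T.cone x) x z u) ∧
      ContinuousBoundaryValues (green ν t w (T.cone x) x)) ∧
    ((∀ z : ℂ, 0 < z.im → ∃! u, IsResolventVector ν t w Set.univ x z u) ∧
      ContinuousBoundaryValues (green ν t w Set.univ x)) := by
  obtain ⟨D, ho, hp, hb, hw, hlim⟩ := main hM1 hT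
  have hcone : T.cone x = D.desc x := by
    unfold ConeTree.cone TD.desc
    rw [hp]
  have hxc : x ∈ T.cone x := ⟨0, rfl⟩
  refine ⟨⟨fun z hz => isRes_unique hT D ho hp hb hw _ x hxc hz, ?_⟩,
    ⟨fun z hz => isRes_unique hT D ho hp hb hw _ x (Set.mem_univ x) hz, ?_⟩⟩
  · apply cbv_of_limits
    intro E
    obtain ⟨L, hL⟩ := (hlim x E).1
    refine ⟨(ν x : ℂ) * L, (hL.const_mul (ν x : ℂ)).congr' ?_⟩
    filter_upwards [self_mem_nhdsWithin] with z hz
    rw [green_eq hT D ho hp hb hw _ x hxc hz, hcone]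
    rfl
  · apply cbv_of_limits
    intro E
    obtain ⟨L, hL⟩ := (hlim x E).2
    refine ⟨(ν x : ℂ) * L, (hL.const_mul (ν x : ℂ)).congr' ?_⟩
    filter_upwards [self_mem_nhdsWithin] with z hz
    rw [green_eq hT D ho hp hb hw _ x (Set.mem_univ x) hz]
    rfl

end Pool.Agent.Results.MP_ae9099_mp.BoundaryContinuity
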